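import Mathlib
import Pool.Agent.Lib.PM42.AtomA
import Pool.Agent.Lib.PM42.AtomB

namespace Pool.Agent.Results.MP_36c1dd_an.AtomicKernels

theorem result (K L : Type*) [TopologicalSpace K] [CompactSpace K] [T2Space K]
    [TopologicalSpace L] [CompactSpace L] [TopologicalSpace.MetrizableSpace L]
    (T : C(K, ℝ) ≃L[ℝ] C(L, ℝ))
    (hA : ∀ y : L, ∃ w : K → ℝ, Summable w ∧ ∀ f : C(K, ℝ), T f y = ∑' x, w x * f x) :
    TotallyDisconnectedSpace K ↔ TotallyDisconnectedSpace L := by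
  refine ⟨fun _ => Pool.Agent.Lib.PM42.Atom.surj_atomic (T : C(K, ℝ) →L[ℝ] C(L, ℝ))
    T.surjective hA, fun _ => ?_⟩
  letI : MetricSpace L := TopologicalSpace.metrizableSpaceMetric L
  exact Pool.Agent.Lib.PM42.Atom.surj_atomic (T.symm : C(L, ℝ) →L[ℝ] C(K, ℝ)) T.symm.surjective
    (Pool.Agent.Lib.PM42.Atom.inv_atomic T hA)

end Pool.Agent.Results.MP_36c1dd_an.AtomicKernels
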